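import Mathlib

/-!
# Dependence on `p` of the Korenblum extremal function

We show that for every `p > 0` and every integer `m ≥ 2` the interval
`(max (κ_p) (κ_{mp}), 1)` is non-empty, and that `F_{mp}(c) ≤ F_p(c)` for every `c` in it.
This refutes the claim that `F_{p₁}(c) < F_{p₂}(c)` for all `p₁ < p₂` and all such `c`.
-/

open MeasureTheory Set

namespace Pool.Agent.Results.MP_ce4856_an.PowerMap

/-- The Bergman space `A^p(𝔻)`: functions analytic in the open unit disc (their values outside the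
disc are irrelevant) for which `|f|^p` is integrable over the disc. -/
def MemBergman (p : ℝ) (f : ℂ → ℂ) : Prop :=
  DifferentiableOn ℂ f (Metric.ball 0 1) ∧
    IntegrableOn (fun z => ‖f z‖ ^ p) (Metric.ball 0 1)

/-- `‖f‖_p = ((1/π) ∫_𝔻 |f|^p dA)^{1/p}`. -/
noncomputable def bnorm (p : ℝ) (f : ℂ → ℂ) : ℝ :=
  ((1 / Real.pi) * ∫ z in Metric.ball (0 : ℂ) 1, ‖f z‖ ^ p) ^ (1 / p)

/-- The property defining Korenblum's constant: whenever `f, g ∈ A^p` satisfy `|f| ≤ |g|` on the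
annulus `c < |z| < 1`, then `‖f‖_p ≤ ‖g‖_p`. -/
def HasMaxPrinciple (p c : ℝ) : Prop :=
  ∀ f g : ℂ → ℂ, MemBergman p f → MemBergman p g →
    (∀ z : ℂ, c < ‖z‖ → ‖z‖ < 1 → ‖f z‖ ≤ ‖g z‖) → bnorm p f ≤ bnorm p g

/-- Korenblum's constant `κ_p`, the supremum of all `c ∈ (0,1)` with the above property
(it is `0` if there is no such `c`, as `sSup ∅ = 0` for real numbers). -/
noncomputable def kappa (p : ℝ) : ℝ :=
  sSup {c : ℝ | 0 < c ∧ c < 1 ∧ HasMaxPrinciple p c}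

/-- The set `FG_p(c)` of admissible pairs. -/
def FG (p c : ℝ) : Set ((ℂ → ℂ) × (ℂ → ℂ)) :=
  {fg | MemBergman p fg.1 ∧ MemBergman p fg.2 ∧ bnorm p fg.1 ≤ 1 ∧ bnorm p fg.2 ≤ 1 ∧
    ∀ z : ℂ, c ≤ ‖z‖ → ‖z‖ < 1 → ‖fg.1 z‖ ≤ ‖fg.2 z‖}

/-- The extremal function `F_p(c) = sup (‖f‖_p^p - ‖g‖_p^p)` over the pairs in `FG_p(c)`. -/
noncomputable def F (p c : ℝ) : ℝ :=
  sSup ((fun fg : (ℂ → ℂ) × (ℂ → ℂ) => bnorm p fg.1 ^ p - bnorm p fg.2 ^ p) '' FG p c)

lemma integral_nonneg' (p : ℝ) (f : ℂ → ℂ) :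
    0 ≤ (1 / Real.pi) * ∫ z in Metric.ball (0 : ℂ) 1, ‖f z‖ ^ p := by
  have h : 0 ≤ ∫ z in Metric.ball (0 : ℂ) 1, ‖f z‖ ^ p :=
    integral_nonneg (fun z => Real.rpow_nonneg (norm_nonneg _) _)
  positivity

lemma bnorm_nonneg (p : ℝ) (f : ℂ → ℂ) : 0 ≤ bnorm p f :=
  Real.rpow_nonneg (integral_nonneg' p f) _

lemma bnorm_rpow {p : ℝ} (hp : 0 < p) (f : ℂ → ℂ) :
    bnorm p f ^ p = (1 / Real.pi) * ∫ z in Metric.ball (0 : ℂ) 1, ‖f z‖ ^ p := by
  unfold bnorm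
  rw [← Real.rpow_mul (integral_nonneg' p f), one_div_mul_cancel hp.ne', Real.rpow_one]

lemma norm_pow_rpow (p : ℝ) (m : ℕ) (f : ℂ → ℂ) (z : ℂ) :
    ‖(fun w => f w ^ m) z‖ ^ p = ‖f z‖ ^ ((m : ℝ) * p) := by
  simp only [norm_pow]
  rw [Real.rpow_mul (norm_nonneg _), Real.rpow_natCast]

lemma memBergman_pow {p : ℝ} {m : ℕ} {f : ℂ → ℂ} (hf : MemBergman ((m : ℝ) * p) f) :
    MemBergman p (fun w => f w ^ m) := by
  refine ⟨hf.1.pow m, ?_⟩
  have h := hf.2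
  simpa only [norm_pow_rpow] using h

lemma bnorm_pow_rpow {p : ℝ} (hp : 0 < p) {m : ℕ} (hm : 2 ≤ m) (f : ℂ → ℂ) :
    bnorm p (fun w => f w ^ m) ^ p = bnorm ((m : ℝ) * p) f ^ ((m : ℝ) * p) := by
  have hmp : 0 < (m : ℝ) * p := by
    have : (0 : ℝ) < m := by exact_mod_cast (by omega : 0 < m)
    positivity
  rw [bnorm_rpow hp, bnorm_rpow hmp]
  simp only [norm_pow_rpow]

lemma bnorm_le_one_iff {p : ℝ} (hp : 0 < p) (f : ℂ → ℂ) :
    bnorm p f ≤ 1 ↔ bnorm p f ^ p ≤ 1 := by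
  constructor
  · intro h
    exact Real.rpow_le_one (bnorm_nonneg p f) h hp.le
  · intro h
    by_contra hc
    exact absurd (Real.one_lt_rpow (not_le.mp hc) hp) (not_lt.mpr h)

lemma FG_pow {p : ℝ} (hp : 0 < p) {m : ℕ} (hm : 2 ≤ m) {c : ℝ} {fg : (ℂ → ℂ) × (ℂ → ℂ)}
    (h : fg ∈ FG ((m : ℝ) * p) c) :
    ((fun w => fg.1 w ^ m, fun w => fg.2 w ^ m) : (ℂ → ℂ) × (ℂ → ℂ)) ∈ FG p c := by
  have hmp : 0 < (m : ℝ) * p := by
    have : (0 : ℝ) < m := by exact_mod_cast (by omega : 0 < m)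
    positivity
  obtain ⟨h1, h2, h3, h4, h5⟩ := h
  refine ⟨memBergman_pow h1, memBergman_pow h2, ?_, ?_, ?_⟩
  · show bnorm p (fun w => fg.1 w ^ m) ≤ 1
    rw [bnorm_le_one_iff hp, bnorm_pow_rpow hp hm, ← bnorm_le_one_iff hmp]
    exact h3
  · show bnorm p (fun w => fg.2 w ^ m) ≤ 1
    rw [bnorm_le_one_iff hp, bnorm_pow_rpow hp hm, ← bnorm_le_one_iff hmp]
    exact h4
  · intro z hz1 hz2
    show ‖fg.1 z ^ m‖ ≤ ‖fg.2 z ^ m‖
    rw [norm_pow, norm_pow]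
    exact pow_le_pow_left₀ (norm_nonneg _) (h5 z hz1 hz2) m

lemma zero_mem_FG {p : ℝ} (hp : 0 < p) (c : ℝ) :
    ((fun _ => 0, fun _ => 0) : (ℂ → ℂ) × (ℂ → ℂ)) ∈ FG p c := by
  have hm : MemBergman p (fun _ => (0 : ℂ)) := by
    refine ⟨differentiableOn_const _, ?_⟩
    simp [Real.zero_rpow hp.ne']
  have hb : bnorm p (fun _ => (0 : ℂ)) ≤ 1 := by
    rw [bnorm_le_one_iff hp, bnorm_rpow hp]
    simp [Real.zero_rpow hp.ne']
  exact ⟨hm, hm, hb, hb, fun z _ _ => le_rfl⟩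

lemma bddAbove_FG {p : ℝ} (hp : 0 < p) (c : ℝ) :
    BddAbove ((fun fg : (ℂ → ℂ) × (ℂ → ℂ) => bnorm p fg.1 ^ p - bnorm p fg.2 ^ p) '' FG p c) := by
  refine ⟨1, ?_⟩
  rintro _ ⟨fg, hfg, rfl⟩
  have h1 : bnorm p fg.1 ^ p ≤ 1 := (bnorm_le_one_iff hp _).1 hfg.2.2.1
  have h2 : 0 ≤ bnorm p fg.2 ^ p := Real.rpow_nonneg (bnorm_nonneg _ _) _
  show bnorm p fg.1 ^ p - bnorm p fg.2 ^ p ≤ 1
  linarith

/-- The key inequality: `F_{mp}(c) ≤ F_p(c)`. -/
lemma F_mul_le {p : ℝ} (hp : 0 < p) {m : ℕ} (hm : 2 ≤ m) (c : ℝ) :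
    F ((m : ℝ) * p) c ≤ F p c := by
  have hmp : 0 < (m : ℝ) * p := by
    have : (0 : ℝ) < m := by exact_mod_cast (by omega : 0 < m)
    positivity
  refine csSup_le_csSup (bddAbove_FG hp c) ⟨_, _, zero_mem_FG hmp c, rfl⟩ ?_
  rintro _ ⟨fg, hfg, rfl⟩
  refine ⟨_, FG_pow hp hm hfg, ?_⟩
  show bnorm p (fun w => fg.1 w ^ m) ^ p - bnorm p (fun w => fg.2 w ^ m) ^ p = _
  rw [bnorm_pow_rpow hp hm, bnorm_pow_rpow hp hm]

lemma volume_unit_ball : (volume.real (Metric.ball (0 : ℂ) 1)) = Real.pi := by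
  simp [measureReal_def, Complex.volume_ball]

lemma integral_id_lt {p : ℝ} (hp : 0 < p) :
    (1 / Real.pi) * ∫ z in Metric.ball (0 : ℂ) 1, ‖z‖ ^ p < 1 := by
  have hint1 : IntegrableOn (fun z : ℂ => ‖z‖ ^ p) (Metric.ball 0 1) := by
    refine Measure.integrableOn_of_bounded (M := 1) ?_ ?_ ?_
    · simp [Complex.volume_ball]
    · exact (continuous_norm.rpow_const (fun _ => Or.inr hp.le)).aestronglyMeasurable
    · refine (ae_restrict_iff' measurableSet_ball).2 (Filter.Eventually.of_forall ?_)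
      intro z hz
      rw [Real.norm_of_nonneg (Real.rpow_nonneg (norm_nonneg _) _)]
      exact Real.rpow_le_one (norm_nonneg _) (by simpa using (mem_ball_zero_iff.1 hz).le) hp.le
  have hint2 : IntegrableOn (fun _ : ℂ => (1 : ℝ)) (Metric.ball (0 : ℂ) 1) := by
    simp [Complex.volume_ball]
  have hlt : ∫ z in Metric.ball (0 : ℂ) 1, ‖z‖ ^ p < ∫ _z in Metric.ball (0 : ℂ) 1, (1 : ℝ) := by
    rw [← sub_pos, ← integral_sub hint2 hint1]
    have hnn : 0 ≤ᵐ[volume.restrict (Metric.ball (0 : ℂ) 1)] fun z : ℂ => 1 - ‖z‖ ^ p := by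
      refine (ae_restrict_iff' measurableSet_ball).2 (Filter.Eventually.of_forall ?_)
      intro z hz
      have := Real.rpow_le_one (norm_nonneg z) (by simpa using (mem_ball_zero_iff.1 hz).le) hp.le
      simpa using this
    rw [setIntegral_pos_iff_support_of_nonneg_ae hnn (hint2.sub hint1)]
    have hsub : Metric.ball (0 : ℂ) 1 ⊆
        Function.support (fun z : ℂ => 1 - ‖z‖ ^ p) ∩ Metric.ball (0 : ℂ) 1 := by
      intro z hz
      refine ⟨?_, hz⟩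
      have : ‖z‖ ^ p < 1 := Real.rpow_lt_one (norm_nonneg z) (mem_ball_zero_iff.1 hz) hp
      simp only [Function.mem_support]
      linarith
    refine lt_of_lt_of_le ?_ (measure_mono hsub)
    exact Metric.measure_ball_pos volume 0 one_pos
  have h1 : ∫ _z in Metric.ball (0 : ℂ) 1, (1 : ℝ) = Real.pi := by
    simp [volume_unit_ball]
  rw [h1] at hlt
  rw [one_div, inv_mul_lt_iff₀ Real.pi_pos, mul_one]
  exact hlt

/-- `κ_p < 1` for every `p > 0`, by comparing the functions `f = a` (constant) and `g = z`. -/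
lemma kappa_lt_one {p : ℝ} (hp : 0 < p) : kappa p < 1 := by
  set v : ℝ := (1 / Real.pi) * ∫ z in Metric.ball (0 : ℂ) 1, ‖z‖ ^ p with hv
  have hv0 : 0 ≤ v := integral_nonneg' p (fun z => z)
  have hv1 : v < 1 := integral_id_lt hp
  -- `a ∈ (0,1)` with `a ^ p > v`
  set w : ℝ := (v + 1) / 2 with hw
  have hw0 : 0 < w := by rw [hw]; linarith
  have hw1 : w < 1 := by rw [hw]; linarith
  have hvw : v < w := by rw [hw]; linarith
  set a : ℝ := w ^ (1 / p) with ha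
  have ha0 : 0 < a := Real.rpow_pos_of_pos hw0 _
  have ha1 : a < 1 := Real.rpow_lt_one hw0.le hw1 (by positivity)
  have hap : a ^ p = w := by
    rw [ha, ← Real.rpow_mul hw0.le, one_div_mul_cancel hp.ne', Real.rpow_one]
  refine lt_of_le_of_lt (Real.sSup_le ?_ ha0.le) ha1
  rintro c ⟨hc0, hc1, hc⟩
  by_contra hac
  push Not at hac
  -- the two test functions
  have hmf : MemBergman p (fun _ => (a : ℂ)) := by
    refine ⟨differentiableOn_const _, ?_⟩
    simp [Complex.volume_ball]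
  have hmg : MemBergman p (fun z => z) := by
    refine ⟨differentiableOn_id, ?_⟩
    refine Measure.integrableOn_of_bounded (M := 1) ?_ ?_ ?_
    · simp [Complex.volume_ball]
    · exact (continuous_norm.rpow_const (fun _ => Or.inr hp.le)).aestronglyMeasurable
    · refine (ae_restrict_iff' measurableSet_ball).2 (Filter.Eventually.of_forall ?_)
      intro z hz
      rw [Real.norm_of_nonneg (Real.rpow_nonneg (norm_nonneg _) _)]
      exact Real.rpow_le_one (norm_nonneg _) (by simpa using (mem_ball_zero_iff.1 hz).le) hp.le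
  have hle := hc _ _ hmf hmg (by
    intro z hz1 _
    rw [Complex.norm_real, Real.norm_of_nonneg ha0.le]
    exact (hac.trans hz1).le)
  have hpow : bnorm p (fun _ => (a : ℂ)) ^ p ≤ bnorm p (fun z => z) ^ p :=
    Real.rpow_le_rpow (bnorm_nonneg _ _) hle hp.le
  rw [bnorm_rpow hp, bnorm_rpow hp] at hpow
  have hA : (1 / Real.pi) * ∫ _z in Metric.ball (0 : ℂ) 1, ‖(a : ℂ)‖ ^ p = w := by
    rw [Complex.norm_real, Real.norm_of_nonneg ha0.le, hap]
    simp only [integral_const, MeasurableSet.univ, measureReal_restrict_apply, univ_inter,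
      volume_unit_ball, smul_eq_mul]
    field_simp
  rw [hA] at hpow
  exact absurd hpow (not_le.mpr hvw)

/-- For every `p > 0` and every integer `m ≥ 2` the interval `(max (κ_p) (κ_{mp}), 1)` is
non-empty, and `F_{mp}(c) ≤ F_p(c)` for **every** `c` in this interval. -/
theorem result (p : ℝ) (hp : 0 < p) (m : ℕ) (hm : 2 ≤ m) :
    max (kappa p) (kappa (m * p)) < 1 ∧
      ∀ c ∈ Set.Ioo (max (kappa p) (kappa (m * p))) 1, F (m * p) c ≤ F p c := by
  have hmp : 0 < (m : ℝ) * p := by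
    have : (0 : ℝ) < m := by exact_mod_cast (by omega : 0 < m)
    positivity
  exact ⟨max_lt (kappa_lt_one hp) (kappa_lt_one hmp), fun c _ => F_mul_le hp hm c⟩

end Pool.Agent.Results.MP_ce4856_an.PowerMap
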